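import Pool.Agent.UL4.Stmts
import Pool.Agent.Helper34_UL3.FUB

/-!
Squad UL4 (MP_c7c9bf_co), row RSC (helper54): the area of the section of the difference body.
-/

set_option autoImplicit false

namespace Pool.Agent.UL4.H54

open MeasureTheory Set Pool.Agent.UL3 Pool.Agent.UL3.H34
open scoped Pointwise

/-- the one variable integral on `[0,1]` -/
theorem int_one : ∫ u in (0 : ℝ)..1, (1 - u ^ ((1 : ℝ) / 3)) ^ 2 = 1 / 10 := by
  have h1 : ∫ u in (0 : ℝ)..1, (1 - u ^ ((1 : ℝ) / 3)) ^ 2 =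
      ∫ u in (0 : ℝ)..1, ((1 - 2 * u ^ ((1 : ℝ) / 3)) + u ^ ((2 : ℝ) / 3)) := by
    refine intervalIntegral.integral_congr fun u hu => ?_
    rw [uIcc_of_le zero_le_one] at hu
    have h2 : u ^ ((2 : ℝ) / 3) = (u ^ ((1 : ℝ) / 3)) ^ 2 := by
      rw [← Real.rpow_natCast, ← Real.rpow_mul hu.1]
      norm_num
    show (1 - u ^ ((1 : ℝ) / 3)) ^ 2 = (1 - 2 * u ^ ((1 : ℝ) / 3)) + u ^ ((2 : ℝ) / 3)
    rw [h2]
    ring
  have i1 : IntervalIntegrable (fun u : ℝ => u ^ ((1 : ℝ) / 3)) volume 0 1 :=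
    intervalIntegral.intervalIntegrable_rpow' (by norm_num)
  have i2 : IntervalIntegrable (fun u : ℝ => u ^ ((2 : ℝ) / 3)) volume 0 1 :=
    intervalIntegral.intervalIntegrable_rpow' (by norm_num)
  rw [h1, intervalIntegral.integral_add (intervalIntegrable_const.sub (i1.const_mul 2)) i2,
    intervalIntegral.integral_sub intervalIntegrable_const (i1.const_mul 2),
    intervalIntegral.integral_const_mul, intervalIntegral.integral_const,
    integral_rpow (Or.inl (by norm_num)), integral_rpow (Or.inl (by norm_num)),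
    Real.one_rpow, Real.one_rpow, Real.zero_rpow (by norm_num), Real.zero_rpow (by norm_num)]
  norm_num

theorem int_cube (v : ℝ) (hv : 0 < v) :
    ∫ l in (0 : ℝ)..v, (1 - (l / v) ^ ((1 : ℝ) / 3)) ^ 2 = v / 10 := by
  have h1 := intervalIntegral.integral_comp_div (a := 0) (b := v) (c := v)
    (fun u : ℝ => (1 - u ^ ((1 : ℝ) / 3)) ^ 2) hv.ne'
  rw [zero_div, div_self hv.ne', int_one] at h1
  rw [h1, smul_eq_mul]
  ring

theorem cont_phi (v : ℝ) : Continuous fun l : ℝ => (1 - (l / v) ^ ((1 : ℝ) / 3)) ^ 2 := by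
  have h1 : Continuous fun l : ℝ => (l / v) ^ ((1 : ℝ) / 3) :=
    (continuous_id.div_const v).rpow_const fun x => Or.inr (by norm_num)
  exact (continuous_const.sub h1).pow 2

theorem sec_compact {K : Set E3} (hK : IsCompact K) (t : ℝ) : IsCompact (sec K t) := by
  have h1 : sec K t = (fun x : E3 => (x 0, x 1)) '' (K ∩ {x | x 2 = t}) := by
    ext p
    constructor
    · intro hp
      exact ⟨up p t, ⟨hp, rfl⟩, rfl⟩
    · rintro ⟨x, ⟨hx, hx2⟩, rfl⟩
      have h2 : x 2 = t := hx2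
      show up (x 0, x 1) t ∈ K
      rw [← h2, up_self]
      exact hx
  rw [h1]
  refine (hK.inter_right (isClosed_eq (by fun_prop) continuous_const)).image ?_
  fun_prop

theorem cont_up : Continuous fun x : ℝ × ℝ => up x 0 := by
  unfold up
  refine (PiLp.continuous_toLp 2 _).comp (continuous_pi fun i => ?_)
  fin_cases i
  · exact continuous_fst
  · exact continuous_snd
  · exact continuous_const

theorem rsc (h1 : RsaStmt) (h2 : RsbStmt) (h3 : DfcStmt) : RscStmt := by
  intro K hK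
  obtain ⟨hS, -, -⟩ := h3 K hK
  have hKfin : (volume : Measure E3) K < ⊤ := hK.cpt.measure_lt_top
  have hVpos : 0 < V K := by
    have h4 : 0 < (volume : Measure E3) K :=
      (isOpen_interior.measure_pos _ hK.int).trans_le (measure_mono interior_subset)
    exact ENNReal.toReal_pos h4.ne' hKfin.ne
  have hSfin : (volume : Measure (ℝ × ℝ)) (dif K) < ⊤ := hS.cpt.measure_lt_top
  obtain ⟨g, hg⟩ : ∃ g : ℝ × ℝ → ENNReal,
      g = fun x => (volume : Measure E3) {y | y ∈ K ∧ y - up x 0 ∈ K} := ⟨_, rfl⟩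
  have hgle : ∀ x, g x ≤ (volume : Measure E3) K := by
    intro x
    rw [hg]
    exact measure_mono fun y hy => hy.1
  have hgfin : ∀ x, g x ≠ ⊤ := fun x => ((hgle x).trans_lt hKfin).ne
  have hgz : ∀ x, x ∉ dif K → g x = 0 := by
    intro x hx
    have h4 : {y | y ∈ K ∧ y - up x 0 ∈ K} = ∅ := by
      ext y
      constructor
      · intro hy
        exact hx ⟨y, hy.1, hy.2⟩
      · intro hy
        exact hy.elim
    rw [hg]
    show (volume : Measure E3) {y | y ∈ K ∧ y - up x 0 ∈ K} = 0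
    rw [h4, measure_empty]
  have hgm : Measurable g := by
    have hcl : IsClosed {q : (ℝ × ℝ) × E3 | q.2 ∈ K ∧ q.2 - up q.1 0 ∈ K} := by
      have c1 : IsClosed {q : (ℝ × ℝ) × E3 | q.2 ∈ K} := hK.cpt.isClosed.preimage continuous_snd
      have c2 : IsClosed {q : (ℝ × ℝ) × E3 | q.2 - up q.1 0 ∈ K} :=
        hK.cpt.isClosed.preimage (continuous_snd.sub (cont_up.comp continuous_fst))
      exact c1.inter c2
    rw [hg]
    exact measurable_measure_prodMk_left hcl.measurableSet
  have hint : ∫⁻ x, g x < ⊤ := by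
    have h4 : ∀ x, g x ≤ (dif K).indicator (fun _ => (volume : Measure E3) K) x := by
      intro x
      by_cases hx : x ∈ dif K
      · rw [indicator_of_mem hx]
        exact hgle x
      · rw [hgz x hx]
        exact bot_le
    refine (lintegral_mono h4).trans_lt ?_
    rw [lintegral_indicator hS.cpt.isClosed.measurableSet, setLIntegral_const]
    exact ENNReal.mul_lt_top hKfin hSfin
  have hrsa : ∫⁻ x, g x = ∫⁻ t : ℝ, ((volume : Measure (ℝ × ℝ)) (sec K t)) ^ 2 := by
    rw [hg]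
    exact h1 K hK.cpt
  have hlc : ∫⁻ x, g x = ∫⁻ l in Ioi (0 : ℝ), (volume : Measure (ℝ × ℝ)) {x | l ≤ (g x).toReal} := by
    have h5 := lintegral_eq_lintegral_meas_le (volume : Measure (ℝ × ℝ))
      (f := fun x => (g x).toReal) (Filter.Eventually.of_forall fun x => ENNReal.toReal_nonneg)
      hgm.ennreal_toReal.aemeasurable
    rw [← h5]
    exact lintegral_congr fun x => (ENNReal.ofReal_toReal (hgfin x)).symm
  have hlow : ∀ l ∈ Ioo (0 : ℝ) (V K),
      ENNReal.ofReal ((1 - (l / V K) ^ ((1 : ℝ) / 3)) ^ 2) * (volume : Measure (ℝ × ℝ)) (dif K) ≤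
        (volume : Measure (ℝ × ℝ)) {x | l ≤ (g x).toReal} := by
    intro l hl
    obtain ⟨r, hr⟩ : ∃ r : ℝ, r = (l / V K) ^ ((1 : ℝ) / 3) := ⟨_, rfl⟩
    have hq0 : 0 ≤ l / V K := div_nonneg hl.1.le hVpos.le
    have hr0 : 0 ≤ r := by
      rw [hr]
      exact Real.rpow_nonneg hq0 _
    have hr1 : r ≤ 1 := by
      rw [hr]
      exact Real.rpow_le_one hq0 ((div_le_one hVpos).2 hl.2.le) (by norm_num)
    have hr3 : r ^ 3 * V K = l := by
      have h4 : r ^ 3 = l / V K := by
        rw [hr, ← Real.rpow_natCast, ← Real.rpow_mul hq0]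
        norm_num
      rw [h4]
      exact div_mul_cancel₀ l hVpos.ne'
    rw [← hr]
    have hsub : (1 - r) • dif K ⊆ {x | l ≤ (g x).toReal} := by
      rintro _ ⟨p, hp, rfl⟩
      have h4 := h2 K hK p hp (1 - r) ⟨by linarith, by linarith⟩
      have h5 : (1 - (1 - r)) ^ 3 * V K = l := by
        rw [sub_sub_cancel]
        exact hr3
      rw [h5] at h4
      show l ≤ (g ((1 - r) • p)).toReal
      rw [hg]
      exact h4
    have hm := Measure.addHaar_smul (volume : Measure (ℝ × ℝ)) (1 - r) (dif K)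
    have hf : Module.finrank ℝ (ℝ × ℝ) = 2 := by
      rw [Module.finrank_prod, Module.finrank_self]
    rw [hf, abs_of_nonneg (sq_nonneg _)] at hm
    rw [← hm]
    exact measure_mono hsub
  have hphi : ∫⁻ l in Ioo (0 : ℝ) (V K), ENNReal.ofReal ((1 - (l / V K) ^ ((1 : ℝ) / 3)) ^ 2) =
      ENNReal.ofReal (V K / 10) := by
    rw [← ofReal_integral_eq_lintegral_ofReal]
    · rw [← integral_Ioc_eq_integral_Ioo, ← intervalIntegral.integral_of_le hVpos.le,
        int_cube (V K) hVpos]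
    · exact ((cont_phi (V K)).integrableOn_Icc (a := 0) (b := V K)).mono_set Ioo_subset_Icc_self
    · exact Filter.Eventually.of_forall fun l => sq_nonneg _
  have hmain : ENNReal.ofReal (V K / 10) * (volume : Measure (ℝ × ℝ)) (dif K) ≤
      ∫⁻ t : ℝ, ((volume : Measure (ℝ × ℝ)) (sec K t)) ^ 2 := by
    rw [← hrsa, hlc, ← hphi, ← lintegral_mul_const']
    · refine (setLIntegral_mono' measurableSet_Ioo hlow).trans ?_
      exact lintegral_mono_set Ioo_subset_Ioi_self
    · exact hSfin.ne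
  have hal : ∀ t : ℝ, ENNReal.ofReal (al K t ^ 2) = ((volume : Measure (ℝ × ℝ)) (sec K t)) ^ 2 := by
    intro t
    have h4 : (volume : Measure (ℝ × ℝ)) (sec K t) ≠ ⊤ := (sec_compact hK.cpt t).measure_lt_top.ne
    rw [ENNReal.ofReal_pow (by exact ENNReal.toReal_nonneg)]
    show ENNReal.ofReal ((volume : Measure (ℝ × ℝ)) (sec K t)).toReal ^ 2 = _
    rw [ENNReal.ofReal_toReal h4]
  have halm : Measurable fun t => al K t := by
    have h4 : Measurable fun t : ℝ => (volume : Measure (ℝ × ℝ)) (Prod.mk t ⁻¹' img K) :=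
      measurable_measure_prodMk_left (img_compact hK.cpt).isClosed.measurableSet
    exact h4.ennreal_toReal
  have hI : Integrable (fun t => al K t ^ 2) := by
    refine ⟨(halm.pow_const 2).aestronglyMeasurable, ?_⟩
    have h4 : ∫⁻ t, ‖al K t ^ 2‖ₑ = ∫⁻ t : ℝ, ((volume : Measure (ℝ × ℝ)) (sec K t)) ^ 2 := by
      refine lintegral_congr fun t => ?_
      rw [Real.enorm_eq_ofReal (sq_nonneg _), hal]
    show ∫⁻ t, ‖al K t ^ 2‖ₑ < ⊤
    rw [h4, ← hrsa]
    exact hint
  refine ⟨hI, ?_⟩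
  have h6 : ENNReal.ofReal (∫ t, al K t ^ 2) =
      ∫⁻ t : ℝ, ((volume : Measure (ℝ × ℝ)) (sec K t)) ^ 2 := by
    rw [ofReal_integral_eq_lintegral_ofReal hI (Filter.Eventually.of_forall fun t => sq_nonneg _)]
    exact lintegral_congr fun t => hal t
  have h7 : ENNReal.ofReal (V K / 10 * ar (dif K)) ≤ ENNReal.ofReal (∫ t, al K t ^ 2) := by
    rw [h6, ENNReal.ofReal_mul (by positivity)]
    show ENNReal.ofReal (V K / 10) * ENNReal.ofReal ((volume : Measure (ℝ × ℝ)) (dif K)).toReal ≤ _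
    rw [ENNReal.ofReal_toReal hSfin.ne]
    exact hmain
  have h8 := (ENNReal.ofReal_le_ofReal_iff (integral_nonneg fun t => sq_nonneg _)).1 h7
  linarith

end Pool.Agent.UL4.H54
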